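import Mathlib

set_option autoImplicit false
open Set

namespace Pool.Agent.Subsum

/-- `f(ε) = ∑ ε_n x_n` -/
noncomputable def ssum (x : ℕ → ℝ) (ε : ℕ → Bool) : ℝ := ∑' n, if ε n then x n else 0

/-- the fibre `f⁻¹(t)` -/
def fib (x : ℕ → ℝ) (t : ℝ) : Set (ℕ → Bool) := {ε | ssum x ε = t}

/-- `L_𝔠(x) = {t : F_x(t) = 𝔠}` -/
def Lc (x : ℕ → ℝ) : Set ℝ := {t | Cardinal.mk (fib x t) = Cardinal.continuum}

/-- `S ⊆ ℝ` contains a Cantor set -/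
def ContainsCantor (S : Set ℝ) : Prop := ∃ K ⊆ S, Nonempty (K ≃ₜ cantorSet)

end Pool.Agent.Subsum
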