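import Mathlib

set_option autoImplicit false
open Set Filter Topology

namespace Pool.Agent.Subsum

abbrev X : Type := ℕ → Bool

instance : Uncountable X := by
  rw [← Cardinal.aleph0_lt_mk_iff]
  simpa using Cardinal.cantor Cardinal.aleph0

lemma closed_eq (n : ℕ) (b : Bool) : IsClosed {ε : X | ε n = b} :=
  isClosed_eq (continuous_apply n) continuous_const

lemma split (R : Set X) (hR : ¬ R.Countable) :
    ∃ m, ∀ b : Bool, ¬ (R ∩ {ε | ε m = b}).Countable := by
  by_contra hcon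
  push Not at hcon
  choose b hb using hcon
  apply hR
  have h1 : R ⊆ {fun m => !(b m)} ∪ ⋃ m, R ∩ {ε | ε m = b m} := by
    intro ε hε
    by_cases h : ∃ m, ε m = b m
    · obtain ⟨m, hm⟩ := h
      right
      exact mem_iUnion.mpr ⟨m, hε, hm⟩
    · push Not at h
      left
      apply mem_singleton_iff.mpr
      funext m
      have := h m
      cases h1 : ε m <;> cases h2 : b m <;> simp_all
  exact ((countable_singleton _).union (countable_iUnion hb)).mono h1

/-- coordinates whose value can be fixed to `e` -/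
def Zs (e : Bool) (Q : Set X) : Set ℕ := {n | ¬ (Q ∩ {ε | ε n = e}).Countable}

lemma Zs_mono (e : Bool) {Q Q' : Set X} (h : Q' ⊆ Q) : Zs e Q' ⊆ Zs e Q := by
  intro n hn hc
  exact hn (hc.mono (inter_subset_inter_left _ h))

lemma Zs_cover {Q : Set X} (hQ : ¬ Q.Countable) (n : ℕ) : n ∈ Zs false Q ∨ n ∈ Zs true Q := by
  by_contra hcon
  push Not at hcon
  obtain ⟨h1, h2⟩ := hcon
  have h1' : (Q ∩ {ε | ε n = false}).Countable := not_not.mp h1
  have h2' : (Q ∩ {ε | ε n = true}).Countable := not_not.mp h2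
  apply hQ
  apply (h1'.union h2').mono
  intro ε hε
  cases h : ε n
  · left; exact ⟨hε, h⟩
  · right; exact ⟨hε, h⟩

def Her (e : Bool) (P : Set X) : Prop :=
  ∀ Q ⊆ P, IsClosed Q → ¬ Q.Countable → Zs e Q ∈ (hyperfilter ℕ : Filter ℕ)

lemma exists_her (C : Set X) (hC : IsClosed C) (hunc : ¬ C.Countable) :
    ∃ e, ∃ P ⊆ C, IsClosed P ∧ ¬ P.Countable ∧ Her e P := by
  by_cases h : Her false C
  · exact ⟨false, C, Subset.rfl, hC, hunc, h⟩
  · unfold Her at h
    push Not at h
    obtain ⟨Q, hQC, hQ, hQu, hZ⟩ := h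
    refine ⟨true, Q, hQC, hQ, hQu, ?_⟩
    intro Q' hQ' hc' hu'
    have h1 : Zs false Q' ∉ (hyperfilter ℕ : Filter ℕ) := fun h => hZ (mem_of_superset h (Zs_mono _ hQ'))
    have h2 : (Zs false Q')ᶜ ∈ (hyperfilter ℕ : Filter ℕ) := Ultrafilter.compl_mem_iff_notMem.mpr h1
    apply mem_of_superset h2
    intro n hn
    exact (Zs_cover hu' n).resolve_left hn

def Inv (Q0 : Set X) (P : List Bool → Set X) : Prop :=
  ∀ σ, IsClosed (P σ) ∧ ¬ (P σ).Countable ∧ P σ ⊆ Q0

lemma step (e : Bool) (Q0 : Set X) (hQ0 : IsClosed Q0) (hu : ¬ Q0.Countable) (hH : Her e Q0)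
    (P : List Bool → Set X) (hP : Inv Q0 P) (k n0 : ℕ) :
    ∃ (P' : List Bool → Set X) (n : ℕ), Inv Q0 P' ∧ n0 < n ∧
      ∀ σ : List Bool, σ.length = k → ∃ m, ∀ b : Bool,
        P' (b :: σ) ⊆ P σ ∩ {ε | ε n = e} ∩ {ε | ε m = b} := by
  have h1 : (⋂ σ ∈ {σ : List Bool | σ.length = k}, Zs e (P σ)) ∈ (hyperfilter ℕ : Filter ℕ) := by
    rw [biInter_mem (List.finite_length_eq Bool k)]
    intro σ _
    exact hH _ (hP σ).2.2 (hP σ).1 (hP σ).2.1
  have h2 : {n | n0 < n} ∈ (hyperfilter ℕ : Filter ℕ) := by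
    apply mem_hyperfilter_of_finite_compl
    apply (Set.finite_Iic n0).subset
    intro n hn
    simpa using hn
  obtain ⟨n, hn1, hn2⟩ := (hyperfilter ℕ).nonempty_of_mem (inter_mem h1 h2)
  have hn1' : ∀ σ : List Bool, σ.length = k → ¬ (P σ ∩ {ε | ε n = e}).Countable := by
    intro σ hσ
    have := mem_iInter₂.mp hn1 σ hσ
    exact this
  have hm : ∀ σ : List Bool, ∃ m, σ.length = k → ∀ b : Bool,
      ¬ (P σ ∩ {ε | ε n = e} ∩ {ε | ε m = b}).Countable := by
    intro σ
    by_cases hσ : σ.length = k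
    · obtain ⟨m, hm⟩ := split _ (hn1' σ hσ)
      exact ⟨m, fun _ => hm⟩
    · exact ⟨0, fun h => absurd h hσ⟩
  choose m hm using hm
  classical
  let P' : List Bool → Set X := fun τ =>
    match τ with
    | [] => Q0
    | b :: σ => if σ.length = k then P σ ∩ {ε | ε n = e} ∩ {ε | ε (m σ) = b} else Q0
  refine ⟨P', n, ?_, hn2, ?_⟩
  · intro τ
    match τ with
    | [] => exact ⟨hQ0, hu, Subset.rfl⟩
    | b :: σ =>
      by_cases hσ : σ.length = k
      · have e1 : P' (b :: σ) = P σ ∩ {ε | ε n = e} ∩ {ε | ε (m σ) = b} := if_pos hσ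
        rw [e1]
        refine ⟨((hP σ).1.inter (closed_eq n e)).inter (closed_eq _ b), hm σ hσ b, ?_⟩
        intro ε hε
        exact (hP σ).2.2 hε.1.1
      · have e1 : P' (b :: σ) = Q0 := if_neg hσ
        rw [e1]
        exact ⟨hQ0, hu, Subset.rfl⟩
  · intro σ hσ
    refine ⟨m σ, fun b => ?_⟩
    have e1 : P' (b :: σ) = P σ ∩ {ε | ε n = e} ∩ {ε | ε (m σ) = b} := if_pos hσ
    rw [e1]

/-- reversed initial segments -/
def L (β : X) : ℕ → List Bool
  | 0 => []
  | k + 1 => β k :: L β k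

lemma L_length (β : X) (k : ℕ) : (L β k).length = k := by
  induction k with
  | zero => rfl
  | succ k ih => simp [L, ih]

lemma L_congr {β β' : X} {k : ℕ} (h : ∀ j < k, β j = β' j) : L β k = L β' k := by
  induction k with
  | zero => rfl
  | succ k ih =>
    simp only [L]
    rw [h k (Nat.lt_succ_self k), ih (fun j hj => h j (Nat.lt_succ_of_lt hj))]

theorem fusion (C : Set X) (hC : IsClosed C) (hunc : ¬ C.Countable) :
    ∃ (e : Bool) (s : ℕ → ℕ), StrictMono s ∧ ¬ {ε ∈ C | ∀ k, ε (s k) = e}.Countable := by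
  obtain ⟨e, Q0, hQC, hQ0, hu, hH⟩ := exists_her C hC hunc
  have hst := step e Q0 hQ0 hu hH
  choose P' n' hInv hlt hsub using hst
  let F : ℕ → {P : List Bool → Set X // Inv Q0 P} × ℕ := fun k => Nat.rec
    (⟨fun _ => Q0, fun _ => ⟨hQ0, hu, Subset.rfl⟩⟩, 0)
    (fun k p => (⟨P' p.1.1 p.1.2 k p.2, hInv _ _ _ _⟩, n' p.1.1 p.1.2 k p.2)) k
  have hF : ∀ k, F (k + 1) = (⟨P' (F k).1.1 (F k).1.2 k (F k).2, hInv _ _ _ _⟩,
      n' (F k).1.1 (F k).1.2 k (F k).2) := fun k => rfl
  let s : ℕ → ℕ := fun k => (F (k + 1)).2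
  have hs : StrictMono s := by
    apply strictMono_nat_of_lt_succ
    intro k
    change (F (k + 1)).2 < (F (k + 1 + 1)).2
    rw [hF (k + 1)]
    exact hlt _ _ _ _
  refine ⟨e, s, hs, ?_⟩
  let A : X → ℕ → Set X := fun β k => (F k).1.1 (L β k)
  have hstep : ∀ k (σ : List Bool), σ.length = k → ∃ m, ∀ b : Bool,
      (F (k + 1)).1.1 (b :: σ) ⊆ (F k).1.1 σ ∩ {ε | ε (s k) = e} ∩ {ε | ε m = b} := by
    intro k σ hσ
    exact hsub (F k).1.1 (F k).1.2 k (F k).2 σ hσ
  have hpt : ∀ β : X, ∃ ε, ∀ k, ε ∈ A β k := by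
    intro β
    have h1 : (⋂ k, A β k).Nonempty := by
      apply IsCompact.nonempty_iInter_of_sequence_nonempty_isCompact_isClosed
      · intro k
        obtain ⟨m, hm⟩ := hstep k (L β k) (L_length β k)
        intro ε hε
        exact ((hm (β k)) hε).1.1
      · intro k
        by_contra hne
        rw [not_nonempty_iff_eq_empty] at hne
        apply ((F k).1.2 (L β k)).2.1
        have : (F k).1.1 (L β k) = ∅ := hne
        rw [this]
        exact countable_empty
      · exact ((F 0).1.2 _).1.isCompact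
      · intro k
        exact ((F k).1.2 _).1
    obtain ⟨ε, hε⟩ := h1
    exact ⟨ε, fun k => mem_iInter.mp hε k⟩
  choose x hx using hpt
  have hinj : Function.Injective x := by
    intro β β' heq
    by_contra hne
    have hex : ∃ k, β k ≠ β' k := by
      by_contra hcon
      push Not at hcon
      exact hne (funext hcon)
    classical
    set k := Nat.find hex with hk
    have hk1 : β k ≠ β' k := Nat.find_spec hex
    have hk2 : ∀ j < k, β j = β' j := fun j hj => not_not.mp (Nat.find_min hex hj)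
    obtain ⟨m, hm⟩ := hstep k (L β k) (L_length β k)
    have h1 : x β m = β k := ((hm (β k)) (hx β (k + 1))).2
    have h2 : x β' m = β' k := by
      have h3 := hx β' (k + 1)
      have h4 : L β' (k + 1) = β' k :: L β k := by
        simp only [L]; rw [L_congr hk2]
      have h5 : x β' ∈ (F (k + 1)).1.1 (β' k :: L β k) := by
        rw [← h4]; exact h3
      exact ((hm (β' k)) h5).2
    apply hk1
    rw [← h1, ← h2, heq]
  intro hcount
  have hr : range x ⊆ {ε ∈ C | ∀ k, ε (s k) = e} := by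
    rintro _ ⟨β, rfl⟩
    refine ⟨hQC (((F 0).1.2 _).2.2 (hx β 0)), fun k => ?_⟩
    obtain ⟨m, hm⟩ := hstep k (L β k) (L_length β k)
    exact ((hm (β k)) (hx β (k + 1))).1.2
  have h3 := hcount.mono hr
  have h4 : Countable X := by
    have := h3.to_subtype
    exact (Set.rangeFactorization_injective.mpr hinj).countable
  exact (not_countable (α := X)) h4

end Pool.Agent.Subsum
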