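import Pool.Agent.H0.Subsum.Fusion
import Pool.Agent.H0.Subsum.Defs

set_option autoImplicit false
open Set Filter Topology

namespace Pool.Agent.Subsum

variable {x : ℕ → ℝ}

lemma term_cont (n : ℕ) : Continuous fun ε : ℕ → Bool => if ε n then x n else 0 :=
  (continuous_of_discreteTopology (f := fun b : Bool => if b then x n else 0)).comp
    (continuous_apply n)

lemma term_bound (hx : ∀ n, 0 < x n) (n : ℕ) (b : Bool) : ‖if b then x n else 0‖ ≤ x n := by
  cases b
  · simp [(hx n).le]
  · simp [abs_of_pos (hx n)]

lemma ssum_cont (hx : ∀ n, 0 < x n) (hs : Summable x) : Continuous (ssum x) :=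
  continuous_tsum term_cont hs (fun n ε => term_bound hx n (ε n))

lemma term_summable (hx : ∀ n, 0 < x n) (hs : Summable x) (ε : ℕ → Bool) :
    Summable fun n => if ε n then x n else 0 :=
  Summable.of_norm_bounded hs fun n => term_bound hx n (ε n)

lemma fib_closed (hx : ∀ n, 0 < x n) (hs : Summable x) (t : ℝ) : IsClosed (fib x t) :=
  isClosed_eq (ssum_cont hx hs) continuous_const

lemma mk_X : Cardinal.mk (ℕ → Bool) = Cardinal.continuum := by
  simp

lemma mk_eq_of_unc {S : Set (ℕ → Bool)} (hS : IsClosed S) (hu : ¬ S.Countable) :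
    Cardinal.mk S = Cardinal.continuum := by
  apply le_antisymm
  · rw [← mk_X]
    exact Cardinal.mk_set_le S
  · have : PolishSpace (ℕ → Bool) := by
      have h : ∀ _ : ℕ, PolishSpace Bool := fun _ => inferInstance
      infer_instance
    obtain ⟨f, hf, -, hinj⟩ := hS.exists_nat_bool_injection_of_not_countable hu
    rw [← mk_X]
    have : Function.Injective (fun b => (⟨f b, hf ⟨b, rfl⟩⟩ : S)) := by
      intro a b hab
      exact hinj (congrArg Subtype.val hab)
    exact Cardinal.mk_le_of_injective this

/-- a fast decreasing subsequence -/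
lemma exists_fast (hx : ∀ n, 0 < x n) (hs : Summable x) (s : ℕ → ℕ) (hmono : StrictMono s) :
    ∃ r : ℕ → ℕ, StrictMono r ∧ ∀ k, x (s (r (k + 1))) ≤ x (s (r k)) / 3 := by
  have h0 : Tendsto (fun k => x (s k)) atTop (𝓝 0) :=
    hs.tendsto_atTop_zero.comp hmono.tendsto_atTop
  have hstep : ∀ m : ℕ, ∃ m', m < m' ∧ x (s m') ≤ x (s m) / 3 := by
    intro m
    have h1 : ∀ᶠ k in atTop, x (s k) < x (s m) / 3 :=
      h0.eventually_lt_const (by have := hx (s m); positivity)
    obtain ⟨k, hk1, hk2⟩ := (h1.and (eventually_gt_atTop m)).exists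
    exact ⟨k, hk2, hk1.le⟩
  choose g hg1 hg2 using hstep
  let r : ℕ → ℕ := fun k => Nat.rec 0 (fun _ p => g p) k
  exact ⟨r, strictMono_nat_of_lt_succ fun k => hg1 (r k), fun k => hg2 (r k)⟩

lemma fast_geo {a : ℕ → ℝ} (ha : ∀ k, 0 < a k) (h : ∀ k, a (k + 1) ≤ a k / 3) (k j : ℕ) :
    a (k + j) ≤ a k * (1 / 3) ^ j := by
  induction j with
  | zero => simp
  | succ j ih =>
    have := h (k + j)
    rw [← add_assoc, pow_succ]
    linarith

lemma fast_inj {a : ℕ → ℝ} (ha : ∀ k, 0 < a k) (h : ∀ k, a (k + 1) ≤ a k / 3) (hsa : Summable a) :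
    Function.Injective (ssum a) := by
  -- it suffices to compare at the first difference
  have key : ∀ η η' : ℕ → Bool, ∀ k, (∀ j < k, η j = η' j) → η k = true → η' k = false →
      ssum a η' < ssum a η := by
    intro η η' k hj h1 h2
    have hd : ssum a η - ssum a η' = ∑' n, ((if η n then a n else 0) - if η' n then a n else 0) :=
      ((term_summable ha hsa η).tsum_sub (term_summable ha hsa η')).symm
    have hsd : Summable fun n => ((if η n then a n else 0) - if η' n then a n else 0) :=
      (term_summable ha hsa η).sub (term_summable ha hsa η')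
    have hsplit := hsd.sum_add_tsum_nat_add (k + 1)
    have hfirst : ∑ i ∈ Finset.range (k + 1), ((if η i then a i else 0) - if η' i then a i else 0) = a k := by
      rw [Finset.sum_range_succ, Finset.sum_eq_zero, h1, h2]
      · simp
      · intro i hi
        rw [hj i (Finset.mem_range.mp hi), sub_self]
    have hgeo : Summable fun j : ℕ => a k * ((1 / 3) * (1 / 3 : ℝ) ^ j) :=
      ((summable_geometric_of_lt_one (by norm_num) (by norm_num)).mul_left _).mul_left _
    have htail : -(a k / 2) ≤ ∑' i, ((if η (i + (k + 1)) then a (i + (k + 1)) else 0) -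
        if η' (i + (k + 1)) then a (i + (k + 1)) else 0) := by
      have e1 : ∑' j : ℕ, a k * ((1 / 3) * (1 / 3 : ℝ) ^ j) = a k / 2 := by
        rw [tsum_mul_left, tsum_mul_left, tsum_geometric_of_lt_one (by norm_num) (by norm_num)]
        ring
      rw [← e1, ← tsum_neg]
      apply Summable.tsum_le_tsum _ hgeo.neg ((summable_nat_add_iff (k + 1)).mpr hsd)
      intro i
      have h3 := fast_geo ha h k (i + 1)
      have e2 : k + (i + 1) = i + (k + 1) := by ring
      rw [e2, pow_succ] at h3
      have h4 := ha (i + (k + 1))
      have h5 : -a (i + (k + 1)) ≤ (if η (i + (k + 1)) then a (i + (k + 1)) else 0) -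
        if η' (i + (k + 1)) then a (i + (k + 1)) else 0 := by
        split_ifs <;> linarith
      linarith
    rw [← hd, hfirst] at hsplit
    have := ha k
    linarith
  intro η η' heq
  by_contra hne
  have hex : ∃ k, η k ≠ η' k := by
    by_contra hcon
    push Not at hcon
    exact hne (funext hcon)
  classical
  have hk1 := Nat.find_spec hex
  have hk2 : ∀ j < Nat.find hex, η j = η' j := fun j hj => not_not.mp (Nat.find_min hex hj)
  cases h1 : η (Nat.find hex) <;> cases h2 : η' (Nat.find hex)
  · exact hk1 (by rw [h1, h2])
  · exact (key η' η _ (fun j hj => (hk2 j hj).symm) h2 h1).ne heq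
  · exact (key η η' _ hk2 h1 h2).ne heq.symm
  · exact hk1 (by rw [h1, h2])

theorem main (hx : ∀ n, 0 < x n) (hs : Summable x) (t : ℝ) (ht : t ∈ Lc x) :
    ContainsCantor (Lc x) := by
  have hC := fib_closed hx hs t
  have hunc : ¬ (fib x t).Countable := by
    intro hc
    have h1 : Cardinal.mk (fib x t) ≤ Cardinal.aleph0 := Cardinal.le_aleph0_iff_set_countable.mpr hc
    have h2 : Cardinal.mk (fib x t) = Cardinal.continuum := ht
    rw [h2] at h1
    exact absurd h1 (not_le.mpr Cardinal.aleph0_lt_continuum)
  obtain ⟨e, s0, hs0, hD0⟩ := fusion _ hC hunc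
  obtain ⟨r, hr, hfast⟩ := exists_fast hx hs s0 hs0
  set s : ℕ → ℕ := s0 ∘ r with hsdef
  have hsm : StrictMono s := hs0.comp hr
  set D : Set (ℕ → Bool) := {ε ∈ fib x t | ∀ k, ε (s0 k) = e} with hD
  set a : ℕ → ℝ := fun k => x (s k) with ha
  have hapos : ∀ k, 0 < a k := fun k => hx _
  have hasum : Summable a := hs.comp_injective hsm.injective
  have hafast : ∀ k, a (k + 1) ≤ a k / 3 := hfast
  -- the modified targets
  set T : (ℕ → Bool) → ℝ := fun η => t - ssum a (fun _ => e) + ssum a η with hT
  have hTc : Continuous T := continuous_const.add (ssum_cont hapos hasum)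
  have hTi : Function.Injective T := by
    intro η η' h
    apply fast_inj hapos hafast hasum
    simp only [hT] at h
    linarith
  refine ⟨range T, ?_, ?_⟩
  · rintro _ ⟨η, rfl⟩
    change Cardinal.mk (fib x (T η)) = Cardinal.continuum
    apply mk_eq_of_unc (fib_closed hx hs _)
    intro hcount
    apply hD0
    -- injection `D → fib x (T η)`
    have hmaps : MapsTo (fun ε => Function.extend s η ε) D (fib x (T η)) := by
      rintro ε ⟨hε, hεe⟩
      have h1 : ssum x ε = t := hε
      change ssum x (Function.extend s η ε) = T η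
      have hsub : ssum x (Function.extend s η ε) - ssum x ε =
          ∑' n, ((if Function.extend s η ε n then x n else 0) - if ε n then x n else 0) :=
        ((term_summable hx hs _).tsum_sub (term_summable hx hs ε)).symm
      have hsupp : Function.support (fun n => ((if Function.extend s η ε n then x n else 0) -
          if ε n then x n else 0)) ⊆ range s := by
        intro n hn
        by_contra hns
        apply hn
        have : Function.extend s η ε n = ε n := Function.extend_apply' _ _ _ hns
        simp only [this, sub_self]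
      rw [← hsm.injective.tsum_eq hsupp] at hsub
      have h2 : ∀ k, ((if Function.extend s η ε (s k) then x (s k) else 0) -
          if ε (s k) then x (s k) else 0) = (if η k then a k else 0) - if e then a k else 0 := by
        intro k
        have e1 : ε (s k) = e := hεe (r k)
        rw [hsm.injective.extend_apply, e1]
      simp_rw [h2] at hsub
      rw [(term_summable hapos hasum η).tsum_sub (term_summable hapos hasum (fun _ => e))] at hsub
      have h3 : ssum x (Function.extend s η ε) - t = ssum a η - ssum a (fun _ => e) := by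
        rw [← h1]; exact hsub
      simp only [hT]
      linarith
    have hinj : InjOn (fun ε => Function.extend s η ε) D := by
      rintro ε ⟨-, hε⟩ ε' ⟨-, hε'⟩ heq
      funext n
      by_cases hn : n ∈ range s
      · obtain ⟨k, rfl⟩ := hn
        have e1 : ε (s k) = e := hε (r k)
        have e2 : ε' (s k) = e := hε' (r k)
        rw [e1, e2]
      · have h1 := congrFun heq n
        simp only at h1
        rw [Function.extend_apply' _ _ _ (by simpa using hn), Function.extend_apply' _ _ _ (by simpa using hn)] at h1
        exact h1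
    exact hmaps.countable_of_injOn hinj hcount
  · have hemb := (hTc.isClosedEmbedding hTi).isEmbedding
    exact ⟨hemb.toHomeomorph.symm.trans cantorSetHomeomorphNatToBool.symm⟩

end Pool.Agent.Subsum
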